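import Pool.Agent.Lib.MP_edae2b_pr.SM.Fin
import Pool.Agent.Lib.MP_edae2b_pr.SM.CR6
import Pool.Agent.Lib.MP_edae2b_pr.SM.CR7
import Pool.Agent.Lib.MP_edae2b_pr.SM.CR8
import Pool.Agent.Lib.MP_edae2b_pr.SM.CR9
import Pool.Agent.Lib.MP_edae2b_pr.SM.CR10
import Pool.Agent.Lib.MP_edae2b_pr.SM.CR11
import Pool.Agent.Lib.MP_edae2b_pr.SM.CR12
import Pool.Agent.Lib.MP_edae2b_pr.SM.CR13

/-!
# The limit shape of the Eden model is not a Euclidean ball in dimensions 6 to 34
-/

set_option autoImplicit false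
open MeasureTheory ProbabilityTheory Filter Topology

namespace Pool.Agent.Results.MP_edae2b_pr.NotBallFrom6

open Pool.Agent.Lib.MP_edae2b_pr.SM Pool.Agent.Lib.MP_edae2b_pr.SM.Chk in
/-- The certificates of the dimensions 6 to 13. -/
theorem certs (k : ℕ) (h6 : 6 ≤ k) (h13 : k ≤ 13) : HasCer (k - 1) (muNB k) := by
  interval_cases k
  · exact hasCer_6
  · exact hasCer_7
  · exact hasCer_8
  · exact hasCer_9
  · exact hasCer_10
  · exact hasCer_11
  · exact hasCer_12
  · exact hasCer_13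

/-- For 6 ≤ d < 35, with iid Exp(1) edge weights on ℤ^d, there is no constant c such that for
every lattice point x the passage time from 0 to nx, divided by n, tends almost surely to c times
the Euclidean norm of x. -/
theorem result :
    ∀ d : ℕ, 6 ≤ d → d < 35 →
      ∀ (Ω : Type) [MeasurableSpace Ω] (P : Measure Ω) [IsProbabilityMeasure P]
        (ω : Sym2 (Fin d → ℤ) → Ω → ℝ),
        iIndepFun ω P →
        (∀ e, Measurable (ω e) ∧ P.map (ω e) = expMeasure 1) →
        ¬ ∃ c : ℝ, ∀ x : Fin d → ℤ, ∀ᵐ t ∂P,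
          Tendsto
            (fun n : ℕ =>
              (⨅ p : (SimpleGraph.fromRel
                  (fun y z : Fin d → ℤ => ∑ i, |y i - z i| = 1)).Walk 0 (n • x),
                  (p.edges.map (fun e => ω e t)).sum) / (n : ℝ))
            atTop (𝓝 (c * Real.sqrt (∑ i, ((x i : ℝ)) ^ 2))) := by
  intro d h6 h35 Ω _ P _ ω hind hlaw
  exact Pool.Agent.Lib.MP_edae2b_pr.SM.not_ball_from (d₀ := 6) le_rfl certs h6 h35
    hind hlaw

end Pool.Agent.Results.MP_edae2b_pr.NotBallFrom6
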